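import Pool.Agent.Lib_helper51.Tilde

set_option autoImplicit false

/-!
# The extremal bound for normalised positive harmonic functions vanishing on relatively dense sets

For `0 < δ < N` the constant `C(N, δ)` equals `(N / π) * log (cot (π δ / (4 N)))`; it is attained by
the periodic set, and only by its translates.
-/

open MeasureTheory Set Filter Topology InnerProductSpace
open scoped Real ENNReal

namespace Pool.Agent.Results.MP_cebbdc_an.PeriodicExtremal

/-- `b` is a real valued subharmonic function on the open set `D`: it is upper semicontinuous on `D`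
and about each point of `D` all sufficiently small circles bound closed discs inside `D`, `b` is
integrable on them, and the value of `b` at the centre is at most its mean over the circle. -/
def SubharmonicOn (b : ℂ → ℝ) (D : Set ℂ) : Prop :=
  UpperSemicontinuousOn b D ∧ ∀ z ∈ D, ∃ ρ > 0, ∀ r : ℝ, 0 < r → r < ρ →
    Metric.closedBall z r ⊆ D ∧ CircleIntegrable b z r ∧ b z ≤ Real.circleAverage b z r

/-- The boundary point `ζ` of the open set `D` is regular for the Dirichlet problem, that is, there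
is a barrier at `ζ`: a negative subharmonic function near `ζ` in `D` which tends to `0` at `ζ`. -/
def RegularPoint (D : Set ℂ) (ζ : ℂ) : Prop :=
  ∃ (V : Set ℂ) (b : ℂ → ℝ), IsOpen V ∧ ζ ∈ V ∧ SubharmonicOn b (D ∩ V) ∧
    (∀ z ∈ D ∩ V, b z < 0) ∧ Tendsto b (𝓝[D ∩ V] ζ) (𝓝 0)

/-- The set `E` of real numbers as a subset of the complex plane. -/
def planeSet (E : Set ℝ) : Set ℂ := (fun x : ℝ => (x : ℂ)) '' E

/-- The family `E(N, δ)`: closed sets of reals meeting every interval of length `N` in measure at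
least `δ`, all of whose points are regular boundary points of the complement in the plane. -/
structure InFamily (N δ : ℝ) (E : Set ℝ) : Prop where
  closed : IsClosed E
  dense : ∀ x : ℝ, ENNReal.ofReal δ ≤ volume (E ∩ Icc x (x + N))
  regular : ∀ x ∈ E, RegularPoint (planeSet E)ᶜ (x : ℂ)

/-- `U` is the normalised function `U_E`: continuous on the plane, zero on `E`, positive and harmonic
off `E`, symmetric about the real axis, with `U(iy)/y → 1` as `y → +∞`. -/
structure IsNormalised (E : Set ℝ) (U : ℂ → ℝ) : Prop where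
  continuous : Continuous U
  zero : ∀ x ∈ E, U (x : ℂ) = 0
  pos : ∀ z ∈ (planeSet E)ᶜ, 0 < U z
  harmonic : HarmonicOnNhd U (planeSet E)ᶜ
  symm : ∀ z : ℂ, U (starRingEnd ℂ z) = U z
  limit : Tendsto (fun y : ℝ => U (y * Complex.I) / y) atTop (𝓝 1)

/-- The periodic set, the union of the intervals of length `δ` centred at the multiples of `N`. -/
def tildeE (N δ : ℝ) : Set ℝ := ⋃ n : ℤ, Icc (n * N - δ / 2) (n * N + δ / 2)

/-- The value of the constant `C(N, δ)`. -/
noncomputable def value (N δ : ℝ) : ℝ := N / π * Real.log (Real.cot (π * δ / (4 * N)))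

open Pool.Agent.Lib_helper51

theorem mem_planeSet {E : Set ℝ} {z : ℂ} : z ∈ planeSet E ↔ z.im = 0 ∧ z.re ∈ E := by
  unfold planeSet
  constructor
  · rintro ⟨x, hx, rfl⟩
    exact ⟨rfl, hx⟩
  · rintro ⟨h1, h2⟩
    exact ⟨z.re, h2, by apply Complex.ext <;> simp [h1]⟩

theorem mul_I_eq (y : ℝ) : (y : ℂ) * Complex.I = ⟨0, y⟩ := by
  apply Complex.ext <;> simp

theorem IsNormalised.nf {E : Set ℝ} {U : ℂ → ℝ} (h : IsNormalised E U) : NF E U := by
  refine ⟨h.continuous, h.zero, fun z hz => h.pos z fun h' => hz (mem_planeSet.1 h'),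
    fun z hz => h.harmonic z fun h' => hz (mem_planeSet.1 h'), h.symm, ?_⟩
  have := h.limit
  simp_rw [mul_I_eq] at this
  exact this

theorem IsNormalised.of_nf {E : Set ℝ} {U : ℂ → ℝ} (h : NF E U) : IsNormalised E U := by
  refine ⟨h.cont, h.zero, fun z hz => h.pos z fun h' => hz (mem_planeSet.2 h'),
    fun z hz => h.harm z fun h' => hz (mem_planeSet.2 h'), h.sym, ?_⟩
  simp_rw [mul_I_eq]
  exact h.lim

theorem regular_of_normalised {E : Set ℝ} (hE : IsClosed E) {U : ℂ → ℝ} (h : NF E U) :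
    ∀ x ∈ E, RegularPoint (planeSet E)ᶜ (x : ℂ) := by
  intro x hx
  have hopen : IsOpen (planeSet E)ᶜ := by
    have : planeSet E = cs E := Set.ext fun z => mem_planeSet
    rw [this]
    exact (cs_closed hE).isOpen_compl
  refine ⟨univ, fun z => - U z, isOpen_univ, mem_univ _, ⟨?_, ?_⟩, ?_, ?_⟩
  · exact (h.cont.neg.upperSemicontinuous).upperSemicontinuousOn _
  · intro z hz
    rw [inter_univ] at hz ⊢
    obtain ⟨ρ, hρ, hball⟩ := Metric.isOpen_iff.1 hopen z hz
    refine ⟨ρ, hρ, fun r hr hrρ => ?_⟩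
    have hsub : Metric.closedBall z r ⊆ (planeSet E)ᶜ :=
      (Metric.closedBall_subset_ball hrρ).trans hball
    refine ⟨hsub, h.cont.neg.continuousOn.circleIntegrable', le_of_eq ?_⟩
    symm
    apply InnerProductSpace.HarmonicOnNhd.circleAverage_eq
    rw [abs_of_pos hr]
    intro w hw
    exact (h.harm w fun h' => hsub hw (mem_planeSet.2 h')).neg
  · intro z hz
    have := h.pos z fun h' => hz.1 (mem_planeSet.2 h')
    linarith
  · have h1 : Tendsto (fun z => - U z) (𝓝 (x : ℂ)) (𝓝 (- U (x : ℂ))) := h.cont.neg.tendsto _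
    have h2 : U (x : ℂ) = 0 := h.zero x hx
    rw [h2, neg_zero] at h1
    exact h1.mono_left nhdsWithin_le_nhds

theorem dens_of {N δ : ℝ} (hN : 0 < N) {E : Set ℝ}
    (hd : ∀ x : ℝ, ENNReal.ofReal δ ≤ volume (E ∩ Icc x (x + N))) :
    Dens (δ / N) {t | N * t ∈ E} := by
  intro x
  have e : {t | N * t ∈ E} ∩ Icc x (x + 1) = (fun t => N * t) ⁻¹' (E ∩ Icc (N * x) (N * x + N)) := by
    ext t
    have hx1 : N * x ≤ N * t ↔ x ≤ t := mul_le_mul_iff_of_pos_left hN
    have hx2 : N * t ≤ N * x + N ↔ t ≤ x + 1 := by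
      rw [show N * x + N = N * (x + 1) by ring]
      exact mul_le_mul_iff_of_pos_left hN
    simp only [mem_inter_iff, mem_preimage, mem_Icc, hx1, hx2]
    rfl
  rw [e, Real.volume_preimage_mul_left hN.ne', abs_of_pos (inv_pos.2 hN), div_eq_inv_mul,
    ENNReal.ofReal_mul (inv_pos.2 hN).le]
  gcongr
  exact hd (N * x)

theorem upper_bound {N δ : ℝ} (hδ : 0 < δ) (hδN : δ < N) {E : Set ℝ} (hE : InFamily N δ E)
    {U : ℂ → ℝ} (hU : IsNormalised E U) (x : ℝ) : U (x : ℂ) ≤ value N δ := by
  have hN : 0 < N := hδ.trans hδN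
  have h1 := hU.nf.dilate hN
  have hcl : IsClosed {t | N * t ∈ E} := hE.closed.preimage (continuous_const.mul continuous_id)
  have h2 := h1.upper hcl (div_pos hδ hN) ((div_lt_one hN).2 hδN) (dens_of hN hE.dense) (x / N)
  have e1 : (N : ℂ) * (⟨x / N, 0⟩ : ℂ) = (x : ℂ) := by
    apply Complex.ext
    · simp only [Complex.mul_re, Complex.ofReal_re, Complex.ofReal_im]
      field_simp
      ring
    · simp
  rw [e1] at h2
  have e2 : π * (δ / N) / 4 = π * δ / (4 * N) := by field_simp
  rw [e2, div_le_iff₀ hN] at h2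
  unfold value
  refine h2.trans (le_of_eq ?_)
  ring

theorem unique_set {N δ : ℝ} (hδ : 0 < δ) (hδN : δ < N) {E : Set ℝ} (hE : InFamily N δ E)
    {U : ℂ → ℝ} (hU : IsNormalised E U) {x : ℝ} (hx : U (x : ℂ) = value N δ) :
    E = (fun t => t + (x - N / 2)) '' tildeE N δ := by
  have hN : 0 < N := hδ.trans hδN
  have h1 := hU.nf.dilate hN
  have hcl : IsClosed {t | N * t ∈ E} := hE.closed.preimage (continuous_const.mul continuous_id)
  have e1 : (N : ℂ) * (⟨x / N, 0⟩ : ℂ) = (x : ℂ) := by
    apply Complex.ext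
    · simp only [Complex.mul_re, Complex.ofReal_re, Complex.ofReal_im]
      field_simp
      ring
    · simp
  have e2 : π * (δ / N) / 4 = π * δ / (4 * N) := by field_simp
  have heq : U ((N : ℂ) * (⟨x / N, 0⟩ : ℂ)) / N =
      (1 / π) * Real.log (Real.cot (π * (δ / N) / 4)) := by
    rw [e1, hx, e2]
    unfold value
    field_simp
  have h2 := h1.unique_set hcl (div_pos hδ hN) ((div_lt_one hN).2 hδN) (dens_of hN hE.dense) heq
  have key : ∀ r : ℝ, r ∈ E ↔ r - (x - N / 2) ∈ tildeE N δ := by
    intro r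
    have h3 := h2 ((r - x) / N)
    have e3 : N * ((r - x) / N + x / N) = r := by field_simp; ring
    have h4 : (r - x) / N + x / N ∈ {t | N * t ∈ E} ↔ r ∈ E := by
      change N * ((r - x) / N + x / N) ∈ E ↔ r ∈ E
      rw [e3]
    rw [h4] at h3
    rw [h3]
    have h5 := tE_iff hδ hδN (r - (x - N / 2))
    have e4 : (r - (x - N / 2)) / N - 1 / 2 = (r - x) / N := by field_simp; ring
    rw [e4] at h5
    exact h5.symm
  ext r
  rw [key r]
  constructor
  · intro h
    exact ⟨_, h, by simp⟩
  · rintro ⟨t, ht, rfl⟩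
    simpa using ht

/-- **Determination of `C(N, δ)`.** For `0 < δ < N` the supremum of `U_E(x)` over all `E` in the
family `E(N, δ)` and all real `x` is `(N / π) * log (cot (π δ / (4 N)))`; the periodic set belongs
to the family and its normalised function takes this value; and whenever the normalised function of
a set of the family takes this value at some real point, the set is a translate of the periodic
set. -/
theorem result (N δ : ℝ) (hδ : 0 < δ) (hδN : δ < N) :
    IsLUB {c : ℝ | ∃ (E : Set ℝ) (U : ℂ → ℝ) (x : ℝ), InFamily N δ E ∧ IsNormalised E U ∧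
      U (x : ℂ) = c} (value N δ) ∧
    InFamily N δ (tildeE N δ) ∧
    (∃ U : ℂ → ℝ, IsNormalised (tildeE N δ) U ∧ ∃ x : ℝ, U (x : ℂ) = value N δ) ∧
    (∀ (E : Set ℝ) (U : ℂ → ℝ) (x : ℝ), InFamily N δ E → IsNormalised E U →
      U (x : ℂ) = value N δ → ∃ a : ℝ, E = (fun t => t + a) '' tildeE N δ) := by
  have hnf : NF (tildeE N δ) (UT N δ) := UT_nf hδ hδN
  have hfam : InFamily N δ (tildeE N δ) :=
    ⟨tE_closed hδ hδN, tE_dens hδ hδN, regular_of_normalised (tE_closed hδ hδN) hnf⟩
  have hval : UT N δ ((N / 2 : ℝ) : ℂ) = value N δ := UT_value hδ hδN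
  refine ⟨⟨?_, ?_⟩, hfam, ⟨UT N δ, IsNormalised.of_nf hnf, N / 2, hval⟩, ?_⟩
  · rintro c ⟨E, U, x, hE, hU, rfl⟩
    exact upper_bound hδ hδN hE hU x
  · intro c hc
    exact hc ⟨tildeE N δ, UT N δ, N / 2, hfam, IsNormalised.of_nf hnf, hval⟩
  · intro E U x hE hU hx
    exact ⟨_, unique_set hδ hδN hE hU hx⟩

end Pool.Agent.Results.MP_cebbdc_an.PeriodicExtremal
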